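import Mathlib

/-!
# Joins with a single vertex: every graph with a triangle has mobile number at least three

For a finite graph `G` with clique number at least three, `mob (G ∨ K₁) ≥ 3`.  Hence there are no
graphs of large clique number with `mob (G ∨ K₁) = 2`.
-/

namespace Pool.Agent.Results.MP_73e407_co.TriangleForcesThree

open Finset

variable {W : Type*}

/-- Three vertices lie on a common shortest path of `H`. -/
def OnCommonGeodesic (H : SimpleGraph W) (x y z : W) : Prop :=
  ∃ (u v : W) (p : H.Walk u v), p.length = H.dist u v ∧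
    x ∈ p.support ∧ y ∈ p.support ∧ z ∈ p.support

/-- General position sets: no three distinct vertices lie on a common shortest path. -/
def GeneralPosition (H : SimpleGraph W) (S : Finset W) : Prop :=
  ∀ x ∈ S, ∀ y ∈ S, ∀ z ∈ S, x ≠ y → y ≠ z → x ≠ z → ¬ OnCommonGeodesic H x y z

variable [DecidableEq W]

/-- A legal move takes one robot from `u ∈ S` to an adjacent unoccupied vertex `v`, such that the
new set of occupied vertices is in general position. -/
def LegalMove (H : SimpleGraph W) (S S' : Finset W) : Prop :=
  ∃ u ∈ S, ∃ v, v ∉ S ∧ H.Adj u v ∧ S' = insert v (S.erase u) ∧ GeneralPosition H S'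

/-- Mobile general position sets: `S` is in general position and some finite sequence of legal
moves starting from `S` visits every vertex. -/
def Mobile (H : SimpleGraph W) (S : Finset W) : Prop :=
  GeneralPosition H S ∧ ∃ (m : ℕ) (T : ℕ → Finset W), T 0 = S ∧
    (∀ i < m, LegalMove H (T i) (T (i + 1))) ∧ ∀ v : W, ∃ i ≤ m, v ∈ T i

/-- The mobile general position number: the largest size of a mobile general position set. -/
noncomputable def mob (H : SimpleGraph W) : ℕ :=
  sSup {k | ∃ S : Finset W, S.card = k ∧ Mobile H S}

/-- The join `G ∨ K₁`: one new vertex `none` adjacent to every vertex of `G`. -/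
def joinOne {V : Type*} (G : SimpleGraph V) : SimpleGraph (Option V) where
  Adj a b := match a, b with
    | some x, some y => G.Adj x y
    | some _, none => True
    | none, some _ => True
    | none, none => False
  symm := ⟨fun a b h => by
    cases a <;> cases b <;> simp_all [SimpleGraph.adj_comm]⟩
  loopless := ⟨fun a h => by cases a <;> simp_all⟩

section Aux

variable {V : Type*} (G : SimpleGraph V)

@[simp] lemma join_some_some (x y : V) : (joinOne G).Adj (some x) (some y) ↔ G.Adj x y := Iff.rfl
@[simp] lemma join_some_none (x : V) : (joinOne G).Adj (some x) none ↔ True := Iff.rfl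
@[simp] lemma join_none_some (x : V) : (joinOne G).Adj none (some x) ↔ True := Iff.rfl
@[simp] lemma join_none_none : (joinOne G).Adj none none ↔ False := Iff.rfl

lemma dist_le_two (a b : Option V) : (joinOne G).dist a b ≤ 2 := by
  have key : ∃ p : (joinOne G).Walk a b, p.length ≤ 2 := by
    cases a with
    | none => cases b with
      | none => exact ⟨.nil, by simp⟩
      | some y => exact ⟨.cons (show (joinOne G).Adj none (some y) by simp) .nil, by simp⟩
    | some x => cases b with
      | none => exact ⟨.cons (show (joinOne G).Adj (some x) none by simp) .nil, by simp⟩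
      | some y => exact ⟨.cons (show (joinOne G).Adj (some x) none by simp)
          (.cons (show (joinOne G).Adj none (some y) by simp) .nil), by simp⟩
  obtain ⟨p, hp⟩ := key
  exact le_trans (SimpleGraph.dist_le p) hp

/-- `b` is adjacent to `a` and `c`, which are not adjacent. -/
def Mid (H : SimpleGraph W) (a b c : W) : Prop := H.Adj a b ∧ H.Adj b c ∧ ¬ H.Adj a c

lemma mid_of_geodesic {x y z : Option V} (hxy : x ≠ y) (hyz : y ≠ z) (hxz : x ≠ z)
    (h : OnCommonGeodesic (joinOne G) x y z) :
    Mid (joinOne G) x y z ∨ Mid (joinOne G) y x z ∨ Mid (joinOne G) x z y := by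
  obtain ⟨u, v, p, hp, hx, hy, hz⟩ := h
  have h2 := dist_le_two G u v
  rw [← hp] at h2
  match p, hp, hx, hy, hz, h2 with
  | .nil, hp, hx, hy, hz, h2 =>
    simp only [SimpleGraph.Walk.support_nil, List.mem_singleton] at hx hy
    exact absurd (hx.trans hy.symm) hxy
  | .cons ha .nil, hp, hx, hy, hz, h2 =>
    simp at hx hy hz
    rcases hx with rfl | rfl <;> rcases hy with rfl | rfl <;> rcases hz with rfl | rfl <;>
      simp_all
  | .cons (v := w) ha (.cons hb .nil), hp, hx, hy, hz, h2 =>
    have hnadj : ¬ (joinOne G).Adj u v := by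
      intro hadj
      have := SimpleGraph.dist_eq_one_iff_adj.mpr hadj
      simp at hp
      omega
    have hnadj' : ¬ (joinOne G).Adj v u := fun h => hnadj h.symm
    simp at hx hy hz
    have ha' := ha.symm
    have hb' := hb.symm
    rcases hx with rfl | rfl | rfl <;> rcases hy with rfl | rfl | rfl <;>
      rcases hz with rfl | rfl | rfl <;>
      first
      | exact absurd rfl hxy
      | exact absurd rfl hyz
      | exact absurd rfl hxz
      | (left; exact ⟨by assumption, by assumption, by assumption⟩)
      | (right; left; exact ⟨by assumption, by assumption, by assumption⟩)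
      | (right; right; exact ⟨by assumption, by assumption, by assumption⟩)
  | .cons ha (.cons hb (.cons hc q)), hp, hx, hy, hz, h2 =>
    simp only [SimpleGraph.Walk.length_cons] at h2
    omega

end Aux

section Main

variable {V : Type*} [DecidableEq V] (G : SimpleGraph V)

/-- A three-element set is in general position in the join as soon as it contains no induced path
with three vertices. -/
lemma gp_triple {a b c : Option V} (h1 : ¬ Mid (joinOne G) a b c)
    (h2 : ¬ Mid (joinOne G) b a c) (h3 : ¬ Mid (joinOne G) a c b) :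
    GeneralPosition (joinOne G) {a, b, c} := by
  have hs : ∀ {x y z : Option V}, Mid (joinOne G) x y z → Mid (joinOne G) z y x :=
    fun h => ⟨h.2.1.symm, h.1.symm, fun h' => h.2.2 h'.symm⟩
  intro x hx y hy z hz hxy hyz hxz hg
  have hm := mid_of_geodesic G hxy hyz hxz hg
  simp only [mem_insert, mem_singleton] at hx hy hz
  rcases hx with rfl | rfl | rfl <;> rcases hy with rfl | rfl | rfl <;>
    rcases hz with rfl | rfl | rfl <;>
    first
    | exact absurd rfl hxy
    | exact absurd rfl hyz
    | exact absurd rfl hxz
    | (rcases hm with hm | hm | hm <;>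
        first
        | exact h1 hm
        | exact h2 hm
        | exact h3 hm
        | exact h1 (hs hm)
        | exact h2 (hs hm)
        | exact h3 (hs hm))

/-- Legal moves between sets in general position can be reversed. -/
lemma legal_symm {W : Type*} [DecidableEq W] {H : SimpleGraph W} {S S' : Finset W}
    (hS : GeneralPosition H S) (h : LegalMove H S S') : LegalMove H S' S := by
  obtain ⟨u, hu, v, hv, hadj, rfl, -⟩ := h
  refine ⟨v, mem_insert_self _ _, u, ?_, hadj.symm, ?_, hS⟩
  · rw [mem_insert, mem_erase]
    rintro (h | h)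
    · exact hv (h ▸ hu)
    · exact h.1 rfl
  · rw [erase_insert (fun h => hv (mem_of_mem_erase h)), insert_erase hu]

/-- One legal move, together with the set of vertices visited so far. -/
def Step {W : Type*} [DecidableEq W] (H : SimpleGraph W) (a b : Finset W × Finset W) : Prop :=
  LegalMove H a.1 b.1 ∧ b.2 = a.2 ∪ b.1

lemma step_path {W : Type*} [DecidableEq W] {H : SimpleGraph W} {S S' : Finset W}
    (h : Relation.ReflTransGen (LegalMove H) S S') (A : Finset W) (hA : S ⊆ A) :
    ∃ A', A ⊆ A' ∧ S' ⊆ A' ∧ Relation.ReflTransGen (Step H) (S, A) (S', A') := by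
  induction h with
  | refl => exact ⟨A, Subset.rfl, hA, .refl⟩
  | tail hab hbc ih =>
    obtain ⟨A', h1, h2, h3⟩ := ih
    rename_i b c
    exact ⟨A' ∪ c, h1.trans subset_union_left, subset_union_right, h3.tail ⟨hbc, rfl⟩⟩

lemma sequence_of_steps {W : Type*} [DecidableEq W] {H : SimpleGraph W} {S : Finset W}
    {b : Finset W × Finset W} (h : Relation.ReflTransGen (Step H) (S, S) b) :
    ∃ (m : ℕ) (T : ℕ → Finset W), T 0 = S ∧ T m = b.1 ∧
      (∀ i < m, LegalMove H (T i) (T (i + 1))) ∧ ∀ v ∈ b.2, ∃ i ≤ m, v ∈ T i := by
  induction h with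
  | refl => exact ⟨0, fun _ => S, rfl, rfl, by simp, fun v hv => ⟨0, le_rfl, hv⟩⟩
  | tail hab hbc ih =>
    rename_i b c
    obtain ⟨m, T, h0, hm, hl, hv⟩ := ih
    refine ⟨m + 1, fun i => if i ≤ m then T i else c.1, by simp [h0], by simp, ?_, ?_⟩
    · intro i hi
      by_cases h : i + 1 ≤ m
      · simp only [h, (Nat.le_of_succ_le h), if_true]
        exact hl i h
      · have : i = m := by omega
        subst this
        simp only [le_refl, if_true, h, if_false]
        rw [hm]
        exact hbc.1
    · intro v hv'
      rw [hbc.2, mem_union] at hv'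
      rcases hv' with hv' | hv'
      · obtain ⟨i, hi, hvi⟩ := hv v hv'
        exact ⟨i, by omega, by simp [hi, hvi]⟩
      · exact ⟨m + 1, le_rfl, by simpa using hv'⟩

/-- If every vertex can be visited from `B`, then `B` is mobile. -/
lemma mobile_of_reach {W : Type*} [DecidableEq W] [Fintype W] {H : SimpleGraph W} {B : Finset W}
    (hB : GeneralPosition H B)
    (hgp : ∀ S, Relation.ReflTransGen (LegalMove H) B S → GeneralPosition H S)
    (h : ∀ v, ∃ S, Relation.ReflTransGen (LegalMove H) B S ∧ v ∈ S) : Mobile H B := by
  have hback : ∀ S, Relation.ReflTransGen (LegalMove H) B S →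
      Relation.ReflTransGen (LegalMove H) S B := by
    intro S hS
    induction hS with
    | refl => exact .refl
    | tail hab hbc ih => exact .head (legal_symm (hgp _ hab) hbc) ih
  have key : ∀ U : Finset W, ∃ A, B ⊆ A ∧ U ⊆ A ∧
      Relation.ReflTransGen (Step H) (B, B) (B, A) := by
    intro U
    induction U using Finset.induction_on with
    | empty => exact ⟨B, Subset.rfl, by simp, .refl⟩
    | insert v U _ ih =>
      obtain ⟨A, h1, h2, h3⟩ := ih
      obtain ⟨S, hS, hv⟩ := h v
      obtain ⟨A1, h4, h5, h6⟩ := step_path hS A h1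
      obtain ⟨A2, h7, h8, h9⟩ := step_path (hback S hS) A1 h5
      refine ⟨A2, h8, ?_, (h3.trans h6).trans h9⟩
      rw [insert_subset_iff]
      exact ⟨h7 (h5 hv), (h2.trans h4).trans h7⟩
  obtain ⟨A, h1, h2, h3⟩ := key univ
  obtain ⟨m, T, h4, -, h6, h7⟩ := sequence_of_steps h3
  exact ⟨hB, m, T, h4, h6, fun v => h7 v (h2 (mem_univ v))⟩

end Main

section Final

variable {V : Type*} [DecidableEq V] {G : SimpleGraph V}

lemma gp_cone {x y : V} (h : G.Adj x y) :
    GeneralPosition (joinOne G) {none, some x, some y} :=
  gp_triple G (fun hm => hm.2.2 (by simp)) (fun hm => hm.2.2 (by simpa using h))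
    (fun hm => hm.2.2 (by simp))

/-- An edge together with a vertex adjacent to both ends, or to none of them. -/
lemma gp_edge {x y v : V} (h : G.Adj x y) (hv : G.Adj v x ↔ G.Adj v y) :
    GeneralPosition (joinOne G) {some v, some x, some y} := by
  refine gp_triple G (fun hm => ?_) (fun hm => ?_) (fun hm => ?_)
  · obtain ⟨h1, h2, h3⟩ := hm
    simp only [join_some_some] at h1 h2 h3
    exact h3 (hv.mp h1)
  · obtain ⟨h1, h2, h3⟩ := hm
    simp only [join_some_some] at h1 h2 h3
    exact h3 h
  · obtain ⟨h1, h2, h3⟩ := hm
    simp only [join_some_some] at h1 h2 h3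
    exact h3 (hv.mpr h1)

lemma move_cone {x y z : V} (hxy : G.Adj x y) (hxz : G.Adj x z) (hyz : G.Adj y z) :
    LegalMove (joinOne G) {none, some x, some y} {none, some z, some y} := by
  have h1 : x ≠ y := hxy.ne
  have h2 : x ≠ z := hxz.ne
  have h3 : y ≠ z := hyz.ne
  refine ⟨some x, by simp, some z, by simp [h2.symm, h3.symm], by simpa using hxz, ?_,
    gp_cone hyz.symm⟩
  ext w
  simp only [mem_insert, mem_singleton, mem_erase]
  constructor
  · rintro (rfl | rfl | rfl)
    · exact Or.inr ⟨by simp, Or.inl rfl⟩
    · exact Or.inl rfl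
    · exact Or.inr ⟨by simp [h1.symm], Or.inr (Or.inr rfl)⟩
  · rintro (rfl | ⟨hne, rfl | rfl | rfl⟩)
    · simp
    · simp
    · exact absurd rfl hne
    · simp

lemma move_out {x y v : V} (hxy : G.Adj x y) (hvx : v ≠ x) (hvy : v ≠ y)
    (hv : G.Adj v x ↔ G.Adj v y) :
    LegalMove (joinOne G) {none, some x, some y} {some v, some x, some y} := by
  refine ⟨none, by simp, some v, by simp [hvx, hvy], by simp, ?_, gp_edge hxy hv⟩
  ext w
  simp only [mem_insert, mem_singleton, mem_erase]
  constructor
  · rintro (rfl | rfl | rfl)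
    · exact Or.inl rfl
    · exact Or.inr ⟨by simp, by simp⟩
    · exact Or.inr ⟨by simp, by simp⟩
  · rintro (rfl | ⟨hne, rfl | rfl | rfl⟩)
    · simp
    · exact absurd rfl hne
    · simp
    · simp

lemma gp_of_reach {W : Type*} [DecidableEq W] {H : SimpleGraph W} {B S : Finset W}
    (hB : GeneralPosition H B) (h : Relation.ReflTransGen (LegalMove H) B S) :
    GeneralPosition H S := by
  induction h with
  | refl => exact hB
  | tail _ hbc _ =>
    obtain ⟨u, hu, v, hv, hadj, -, hgp⟩ := hbc
    exact hgp

/-- If `x, y, z` is a triangle of `G` then the three robots on `x`, `y` and the new vertex can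
visit every vertex of the join. -/
lemma mobile_of_triangle [Fintype V] {x y z : V} (hxy : G.Adj x y) (hxz : G.Adj x z)
    (hyz : G.Adj y z) : Mobile (joinOne G) {none, some x, some y} := by
  refine mobile_of_reach (gp_cone hxy) (fun S hS => gp_of_reach (gp_cone hxy) hS) ?_
  have e1 : ({none, some y, some x} : Finset (Option V)) = {none, some x, some y} := by
    ext w; simp only [mem_insert, mem_singleton]; tauto
  have r1 : Relation.ReflTransGen (LegalMove (joinOne G)) {none, some x, some y}
      {none, some z, some y} := .single (move_cone hxy hxz hyz)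
  have r2 : Relation.ReflTransGen (LegalMove (joinOne G)) {none, some x, some y}
      {none, some z, some x} := by
    rw [← e1]
    exact .single (move_cone hxy.symm hyz hxz)
  intro v
  cases v with
  | none => exact ⟨_, .refl, by simp⟩
  | some v =>
    by_cases hvx : v = x
    · subst hvx; exact ⟨_, .refl, by simp⟩
    by_cases hvy : v = y
    · subst hvy; exact ⟨_, .refl, by simp⟩
    by_cases hvz : v = z
    · subst hvz; exact ⟨_, r1, by simp⟩
    by_cases h1 : (G.Adj v x ↔ G.Adj v y)
    · exact ⟨_, .single (move_out hxy hvx hvy h1), by simp⟩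
    by_cases h2 : (G.Adj v z ↔ G.Adj v y)
    · exact ⟨_, r1.tail (move_out hyz.symm hvz hvy h2), by simp⟩
    by_cases h3 : (G.Adj v z ↔ G.Adj v x)
    · exact ⟨_, r2.tail (move_out hxz.symm hvz hvx h3), by simp⟩
    exfalso
    tauto

/-- For every finite graph `G` with clique number at least three, `mob (G ∨ K₁) ≥ 3`. -/
theorem result (V : Type) [Fintype V] [DecidableEq V] (G : SimpleGraph V)
    (hG : 3 ≤ G.cliqueNum) : 3 ≤ mob (joinOne G) := by
  obtain ⟨s, hs⟩ := G.exists_isNClique_cliqueNum
  obtain ⟨t, hts, ht⟩ := exists_subset_card_eq (hs.card_eq.symm ▸ hG : 3 ≤ s.card)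
  obtain ⟨x, y, z, hxy, hxz, hyz, rfl⟩ := card_eq_three.mp ht
  have hx : x ∈ (s : Set V) := hts (by simp)
  have hy : y ∈ (s : Set V) := hts (by simp)
  have hz : z ∈ (s : Set V) := hts (by simp)
  have hc := hs.isClique
  have axy : G.Adj x y := hc hx hy hxy
  have axz : G.Adj x z := hc hx hz hxz
  have ayz : G.Adj y z := hc hy hz hyz
  refine le_csSup ?_ ⟨{none, some x, some y}, ?_, mobile_of_triangle axy axz ayz⟩
  · refine ⟨Fintype.card (Option V), ?_⟩
    rintro k ⟨S, rfl, -⟩
    exact card_le_univ S
  · rw [card_eq_three]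
    exact ⟨none, some x, some y, by simp, by simp, by simpa using hxy, rfl⟩

end Final

end Pool.Agent.Results.MP_73e407_co.TriangleForcesThree
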